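import Pool.Agent.Run7.h615.ES.Bianchi

/-!
# Bianchi newforms of weight 2 and abelian type

Let `f` be a Bianchi newform of weight 2 over the imaginary quadratic field `K`, not dihedral, with
`χ = χ^c`. For a number field `L` containing `K` call a representation of `Gal(ℚ̄/L)` over `ℚ̄_p` of abelian
type if it occurs in a tensor construction `V_p(B)^(⊗ a) ⊗ (V_p(B)^∨)^(⊗ b)`, `B` an abelian variety over
`L`; e.g. everything in the cohomology of products of curves, abelian varieties, K3 surfaces, and of varieties
dominated by these.

Theorem. Suppose that for one prime `p`, one number field `L`, some `n ≥ 1` and some representation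
`X ≠ 0` of `Gal(ℚ̄/L)` the representation `Sym^n(ρ_(f,p)) ⊗ X` is of abelian type. Then there is an abelian
variety `A` over `K` such that for all primes `p` the representation `ρ_(f,p)` occurs in `V_p(A)`. So
`ρ_(f,p)` arises from étale cohomology for all `p`. The condition is also necessary for the existence
of `A`.

Thus it is not necessary to find `ρ_(f,p)` itself: e.g. the adjoint representation, `ρ_(f,p) ⊗ ρ_(f,p)^c`
(the Asai representation), or the tensor product with any other representation, over any number field
and for one prime, is enough. If the answer to the question of the page is negative for `f` then no part of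
the tensor category of `f` is of abelian type.

Proof. `End(Sym^n(ρ) ⊗ X)` contains the adjoint representation `ad(ρ)`, `ρ = ρ_(f,p)`. Let `S` be the
factor `SL₂` of the monodromy group of `V_p(B) ⊕ ρ` which acts nontrivially on `ρ`. The irreducible
constituents of `V_p(B)` on which `S` acts nontrivially are `Sym^k(ρ) ⊗ τ`, `k ≥ 1`. By the independence of
`p` of the ranks of the monodromy groups `ad(ρ_(f,p))` is of abelian type for all `p`. The coroot of `S`
defines a reflection of the character group of the Frobenius torus at `v` which preserves the weights of
`V(B)`; such a reflection is unique, so the coroots for all `p` agree. The Hodge-Tate weights, for `p` in a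
set of density one, give `k = 1`, and then this is so for all `p`; and the Hodge-Tate weights of `τ` are
zero. Let `y` be an eigenvalue of the Frobenius at `v` on `τ`; it has absolute value `1` (Ramanujan's
conjecture for `f`), it is a unit outside the residue characteristic `p'` of `v`, and it is also an eigenvalue
of the crystalline Frobenius on one of the `τ` for `p'`, hence a unit. By Kronecker `y` is a root of unity,
and by Chebotarev `τ` is trivial on an open subgroup.

Known facts used on `f`: existence of `ρ_(f,p)`, local properties at `p` for a set of primes of density one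
(Mok, Jorza), Ramanujan's conjecture (Boxer, Calegari, Gee, Newton, Thorne). The data and known facts are in
`Run7.h615.ES.Bianchi`, `Bianchi.Known`, `BPair`, `BPair.Known`.
-/

set_option autoImplicit false

namespace Pool.Agent.Results.MP_2e0e07_nt.AbelianType

open Run7.h615.ES

/-- If `Sym^n(ρ_(f,p)) ⊗ X` is of abelian type over some number field, for one `p`, then all `ρ_(f,p)`
occur in one abelian variety over `K`, and conversely; in this case all `ρ_(f,p)` arise from étale
cohomology. -/
theorem result : ∀ D : Bianchi, D.Known → ∀ f : D.Form,
    ((∃ A : D.AV D.base, ∀ p, D.Occurs (D.rho p D.base f) (D.V p A)) ↔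
      ∃ (p : D.Lam) (L : D.Fld) (B : D.AV L) (n : ℕ) (X : D.Rp p L), 1 ≤ n ∧ ¬ D.Zero X ∧
        D.AbT p B (D.tens (D.sym n (D.rho p L f)) X)) ∧
    ((∃ (p : D.Lam) (L : D.Fld) (B : D.AV L) (n : ℕ) (X : D.Rp p L), 1 ≤ n ∧ ¬ D.Zero X ∧
        D.AbT p B (D.tens (D.sym n (D.rho p L f)) X)) → ∀ p, D.Arises p f) := by
  intro D h f
  refine ⟨h.iff f, fun hex p => ?_⟩
  obtain ⟨A, hA⟩ := (h.iff f).mpr hex
  exact h.arises p A f (hA p)

end Pool.Agent.Results.MP_2e0e07_nt.AbelianType
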