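import Pool.Agent.Run7.h798.Tate.Bi

/-!
# MP_2e0e07_nt, Q1: geometric origin of two-dimensional representations and singular cubic hypersurfaces

`D` is the `p`-adic cohomology of the schemes over number fields with the action of the Galois groups. For a
scheme `X` over `ℚ` the representation `h r j X` is the part of lowest weight of `H_{2j-r}(X̄, E)` (homology
with closed supports), twisted by `-j`; for `X` smooth projective of dimension `d` it is `H^i(X̄, E)(d-j)`
with `i = 2(d-j) + r`. For a Bianchi newform of weight `k + 2` take `r = k + 1` and `V = ρ_{f,p}`.
-/

set_option autoImplicit false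

open CategoryTheory AlgebraicGeometry Pool.Agent.Y116.UV Pool.Agent.Q193.LT Pool.Agent.Q282.UK
  Pool.Agent.Q282.UZ Run7.h798.UV Run7.h798.Tate Run7.h798.Tate.Gal

namespace Pool.Agent.Results.MP_2e0e07_nt.CubicHypersurfaces

/-- **Theorem.** Let `K` be a number field, `r` an integer, `N` a natural number and `V` a representation of
`Gal(K̄/K)`. The following are equivalent.

1. `V` arises from étale cohomology: it is a subquotient of `H^i(X̄, E)(m)`, `i - 2m = r`, for a smooth
   projective scheme `X` over `K`.
2. `V` is a subquotient of the restriction to `Gal(K̄/K)` of the part of lowest weight of the homology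
   `H_{2j-r}`, `j ≥ N`, of a singular cubic hypersurface `∑_l z_l f_l(x, y) = 0` over `ℚ`, every `f_l` being
   a sum of at most three monomials `x_i y_j`.
3. The induced representation `Ind V` of `Gal(ℚ̄/ℚ)` is a subquotient of the part of lowest weight of the
   homology `H_{2j-r}`, `j ≥ N`, of such a cubic hypersurface. -/
theorem result {E : Type} [Field E] {D : Theory E} (L : Geometry D) {K : Type} [Field K] [NumberField K]
    (I : Induction L K) (N : ℕ) (r : ℤ) (V : GRep E (AbsGal K)) :
    [Arises D K r V, InCubic L N K r V, InCubicQ D N r (I.ind V)].TFAE :=
  bianchi L I N r V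

end Pool.Agent.Results.MP_2e0e07_nt.CubicHypersurfaces
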