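import Pool.Agent.Run7.h567.GO.Fin

/-!
# MP_2e0e07_nt: geometric origin of Galois representations of Bianchi newforms

`K` is a number field, for example imaginary quadratic. `(ρ l)` is a compatible system of irreducible
two-dimensional representations of its absolute Galois group, for example the system `ρ_{f,p}` of
a Bianchi newform `f`, with Frobenius polynomials `h v`.

One of the representations arises from étale cohomology if and only if all do, and if and only if
there are a smooth projective variety `X` over `K` and integers `i`, `j` such that, outside a set of places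
of lower density zero, ONE of the Frobenius eigenvalues of the system at `v` is a Frobenius
eigenvalue of `H^i(X)(j)` at `v`.

The proof was written by helper300, helper590, helper646, helper842, helper930, helper973 and
helper567.
-/

set_option autoImplicit false

namespace Pool.Agent.Results.MP_2e0e07_nt.OneFrobeniusEigenvalue

open Run7.h567.GO Polynomial NumberField IsDedekindDomain Pool.Agent.W401.Cheb

theorem result (K : Type) [Field K] [NumberField K] (F : Type) [Field F] (Λ : Type) [Nonempty Λ]
    (E : Λ → Type) [∀ l, Field (E l)] [∀ l, CharZero (E l)] [∀ l, IsAlgClosed (E l)]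
    [∀ l, TopologicalSpace (E l)] [∀ l, IsTopologicalRing (E l)] [∀ l, T2Space (E l)]
    (ι : ∀ l, F →+* E l) (𝓗 : Cohomology (numberField K) E ι)
    (ρ : ∀ l, MRep (GK K) (E l) 2) (hρ : ∀ l, Irred (ρ l))
    (h : HeightOneSpectrum (𝓞 K) → F[X]) (hh : ∀ l, HasFrobPoly (numberField K) (ι l) (ρ l) h) :
    List.TFAE [
      ∃ l, 𝓗.Arises l (ρ l),
      ∀ l, 𝓗.Arises l (ρ l),
      ∃ x : 𝓗.I, ∀ l, InCat (𝓗.H l x) (ρ l),
      ∃ x : 𝓗.I, LargeSet {v | h v ∣ 𝓗.P x v ^ 2},
      ∃ x : 𝓗.I, LargeSet {v | ¬ IsCoprime (h v) (𝓗.P x v)}] :=
  compatible_two 𝓗 ρ hρ h hh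

end Pool.Agent.Results.MP_2e0e07_nt.OneFrobeniusEigenvalue
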