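import Pool.Agent.Run7.h199.ZO.Eff2

/-!
# One percent of the tensor powers decides whether a representation arises from étale cohomology

Let `𝒞` be the category of the semisimple continuous representations of `G_K` over `ℚ̄_p` which are
unramified outside a finite set of places, and let `𝒢` be the class of those whose irreducible
constituents arise from étale cohomology. This class is stable under direct sums, subobjects, tensor
products (Künneth formula) and duals (Poincaré duality) and contains the representations with
finite image. By Tannaka duality, with an isomorphism `ℚ̄_p ≅ ℂ`, the category `𝒞` is the category of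
the representations of a pro-reductive group `Γ` and `𝒢` is the class of the representations on which a
normal subgroup `N` acts trivially; the largest subobject of `V` in `𝒢` is `V^N`. The representation
`ρ_{f,p}` is a homomorphism `ρ : Γ → GL_2(ℂ)`, and it arises from étale cohomology if and only if
`ρ(N) = 1`. Its determinant is a product of a power of the cyclotomic character and a character of finite
order, so it is in `𝒢` and `det ρ(g) = 1` for `g` in `N`. If `ρ_{f,p}` is irreducible on all subgroups of finite
index of `G_K` (that is, if its projective image is infinite and it is not induced from a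
quadratic extension of `K`) then `ρ` is irreducible on all subgroups of finite index (`LieIrr`).

The theorem is about arbitrary groups `Γ` and normal subgroups `N`.

**Theorem.** Let `V` be a complex representation of `Γ` of dimension two which is irreducible on every
subgroup of finite index, and let `det(g) = 1` on `V` for all `g` in the normal subgroup `N`.
Call `V` *thin* if for all `n ≥ 0` and all representations `W` of `Γ` the vectors of `V^n ⊗ W` which are
fixed by `N` form a space of dimension at most `2^n dim W / (n + 1)^(1/2)`, where `V^n` is the
`n`-th tensor power. So for `n ≥ 10000` this is at most one percent, for all `W`.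

1. One and only one of the following is true: `N` acts on `V` through `± 1`; or `V` is thin.
2. In the first case `N` acts trivially on `V^n` for all even `n`.
3. `N` acts trivially on `V` if and only if there is one `n` such that the share of the fixed vectors in
   `V^n` is larger than `1 / (n + 1)^(1/2)`, and for some odd `m` there is a nonzero fixed vector in `V^m`.

So `ρ_{f,p}` arises from étale cohomology if for one `n ≥ 10000` one percent of its `n`-th tensor power
does and for some odd `m` a nonzero part of its `m`-th tensor power does; and if the adjoint
representation does not arise from étale cohomology then for all `n` and `W` the part of `V^n ⊗ W` which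
does has dimension at most `2^n dim W / (n + 1)^(1/2)`.

The proof. Let `g` be in `N` with eigenvalues `l_1, ..., l_b` on `V`. By comparing traces of polynomials in
`g`, the space of the fixed vectors of `g` in `V^n ⊗ W` has dimension at most `dim W` times the largest
number of words of length `n` in `l_1, ..., l_b` with a given product. Let the ratio of `l_i` and `l_j` have order
larger than `n`. If all letters of a word other than `l_i`, `l_j` are given (and the `k` places of these
two) then the product determines how often `l_i` occurs. So the number of words is at most the sum of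
`binom(n, k) (b - 2)^(n - k) binom(k, k / 2)` over `k`, and by the inequality of Cauchy and Schwarz and
`binom(k, k / 2)^2 ≤ 4^k / (k + 1)` this is at most `(b / (2 (n + 1)))^(1/2) b^n`. So if `V` is not thin
then there is an `n` such that all ratios of eigenvalues of elements of `N` have order at most `n`. Then
the traces of the set `N_1` of the multiples of determinant one of elements of `N` take only finitely
many values. The linear span of `N_1` is an algebra which is normalised by `Γ`, and as `V` is
irreducible the trace form of this algebra is nondegenerate. So `N_1` is finite (Burnside's argument),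
and a subgroup `H` of finite index in `Γ` commutes with it. If `V` is irreducible on `H` then the elements
of `N` act as scalars (Schur's lemma). If `N` acts by scalars then `V` is not thin: take the dual of `V^n`
for `W`.
-/

set_option autoImplicit false

open Filter Topology Matrix Run7.h199.ZO

namespace Pool.Agent.Results.MP_2e0e07_nt.OnePercent

/-- **The one percent law.** -/
theorem result {Γ : Type*} [Group Γ] (N : Subgroup Γ) [N.Normal]
    (ρ : Γ →* Matrix (Fin 2) (Fin 2) ℂ) (hρ : LieIrr ρ) (hdet : ∀ g ∈ N, (ρ g).det = 1) :
    ((∀ g ∈ N, ρ g = 1 ∨ ρ g = -1) ↔ ¬ ∀ (n : ℕ) (κ : Type) [Fintype κ] [DecidableEq κ]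
      (σ : Γ →* Matrix κ κ ℂ), (Module.finrank ℂ (fixw ρ N n σ) : ℝ) ≤
        (2 : ℝ) ^ n * Fintype.card κ / Real.sqrt (n + 1)) ∧
    ((∀ g ∈ N, ρ g = 1 ∨ ρ g = -1) → ∀ n, Even n → fix ρ N n = ⊤) ∧
    ((∀ g ∈ N, ρ g = 1) ↔ (∃ n : ℕ, 1 / Real.sqrt (n + 1) < share ρ N n) ∧
      ∃ m : ℕ, Odd m ∧ 0 < share ρ N m) := by
  have h1 : ∀ g ∈ N, (ρ g).det ^ 1 = 1 := fun g hg => by rw [pow_one, hdet g hg]
  have h2 : ∀ g ∈ N, (∃ c : ℂ, ρ g = c • 1) → ρ g = 1 ∨ ρ g = -1 := by
    rintro g hg ⟨c, hc⟩
    have h3 := hdet g hg
    rw [hc, Matrix.det_smul, Matrix.det_one, mul_one, Fintype.card_fin] at h3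
    rw [sq] at h3
    rcases mul_self_eq_one_iff.1 h3 with h4 | h4
    · left
      rw [hc, h4, one_smul]
    · right
      rw [hc, h4, neg_smul, one_smul]
  have h3 : ∀ g, (ρ g = 1 ∨ ρ g = -1) → ∃ c : ℂ, ρ g = c • 1 ∧ c ^ 2 = 1 := by
    rintro g (h | h)
    · exact ⟨1, by rw [h, one_smul], by norm_num⟩
    · exact ⟨-1, by rw [h, neg_smul, one_smul], by norm_num⟩
  have hs : ∀ n : ℕ, Real.sqrt ((2 : ℕ) / (2 * (n + 1))) = 1 / Real.sqrt (n + 1) := by
    intro n
    rw [← Real.sqrt_one, ← Real.sqrt_div zero_le_one, Real.sqrt_one]
    congr 1
    push_cast
    field_simp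
  have hT : (∀ (n : ℕ) (κ : Type) [Fintype κ] [DecidableEq κ] (σ : Γ →* Matrix κ κ ℂ),
      (Module.finrank ℂ (fixw ρ N n σ) : ℝ) ≤ (2 : ℝ) ^ n * Fintype.card κ / Real.sqrt (n + 1)) ↔
      Thin ρ N := by
    refine forall_congr' fun n => forall_congr' fun κ => forall_congr' fun i1 =>
      forall_congr' fun i2 => forall_congr' fun σ => ?_
    rw [hs n, one_div, inv_mul_eq_div]
    push_cast
    rfl
  refine ⟨?_, fun h n hn => ?_, ?_⟩
  · rw [hT, ← scalar_iff_thin two_pos hρ]
    exact ⟨fun h g hg => ⟨_, (h3 g (h g hg)).choose_spec.1⟩, fun h g hg => h2 g hg (h g hg)⟩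
  · obtain ⟨d, hd⟩ := hn.two_dvd
    apply fix_eq_top
    intro g hg
    obtain ⟨c, hc, hc2⟩ := h3 g (h g hg)
    exact ⟨c, hc, by rw [hd, pow_mul, hc2, one_pow]⟩
  · rw [trivial_iff_thin' two_pos hρ h1]
    simp only [mul_one, Nat.coprime_two_right, hs]

end Pool.Agent.Results.MP_2e0e07_nt.OnePercent
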